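import Mathlib
import Pool.Agent.Lib.MP_b430f2_co.UpperBound

/-! Upper bound `f_d(k,n) ≤ C n^(k(k-1)/(k+d-1))` for all `d` and `k`. -/

namespace Pool.Agent.Results.MP_b430f2_co.Boxes

open Pool.Agent.Lib.MP_b430f2_co

/-- For all `d, k ≥ 1` there is `C > 0` such that `f_d(k,n) ≤ C n^(k(k-1)/(k+d-1))` for all
`n ≥ 1`. -/
theorem result (d k : ℕ) (hd : 1 ≤ d) (hk : 1 ≤ k) :
    ∃ C : ℝ, 0 < C ∧ ∀ n : ℕ, 1 ≤ n →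
      (fmin d k n : ℝ) ≤ C * (n : ℝ) ^ (((k : ℝ) * ((k : ℝ) - 1)) / ((k : ℝ) + (d : ℝ) - 1)) :=
  upper_bound d k hd hk

end Pool.Agent.Results.MP_b430f2_co.Boxes
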