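import Mathlib
import Pool.Agent.Lib.MP_b430f2_co.Lower

/-! Lower bound of order `n^(k-d)` for `f_d(k,n)`, for all `d ≥ 1` and `k ≥ d + 2`. -/

namespace Pool.Agent.Results.MP_b430f2_co.LowerBound

open Pool.Agent.Lib.MP_b430f2_co

/-- For all `d ≥ 1` and `k ≥ d + 2` there is `c > 0` such that `f_d(k,n) ≥ c n^(k-d)` for all
`n ≥ k`, where for `k = d + 2` the bound is weakened by the factor `1 + log n`. -/
theorem result (d k : ℕ) (hd : 1 ≤ d) (hk : d + 2 ≤ k) :
    ∃ c : ℝ, 0 < c ∧ ∀ n : ℕ, k ≤ n →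
      c * (n : ℝ) ^ (k - d) ≤
        (if k = d + 2 then 1 + Real.log n else 1) * (fmin d k n : ℝ) := by
  set M : ℕ := (2 * k * 349528 ^ (d + 1)) ^ (k - d) * (4 ^ k * k ^ k * 4624) with hM
  set M' : ℕ := (2 * k * 349528 ^ (d + 1)) ^ (k - d) * (4 ^ k * k ^ k * 3468) with hM'
  have hk0 : 0 < k := by omega
  have hM0 : 0 < M := by positivity
  have hM0' : (0 : ℝ) < M := by exact_mod_cast hM0
  have hMM : (M' : ℝ) ≤ M := by
    have : M' ≤ M := Nat.mul_le_mul_left _ (Nat.mul_le_mul_left _ (by norm_num))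
    exact_mod_cast this
  refine ⟨1 / M, by positivity, ?_⟩
  intro n hn
  obtain ⟨P, hP, hPm⟩ : ∃ P : Finset (Fin d → ℝ), P.card = n ∧ numClasses k P = fmin d k n := by
    have hne : {m : ℕ | ∃ P : Finset (Fin d → ℝ), P.card = n ∧ numClasses k P = m}.Nonempty := by
      have : Nonempty (Fin d) := ⟨⟨0, hd⟩⟩
      obtain ⟨P, hP⟩ := Infinite.exists_subset_card_eq (Fin d → ℝ) n
      exact ⟨_, P, hP, rfl⟩
    exact Nat.sInf_mem hne
  have hn1 : (1 : ℝ) ≤ n := by
    have : 1 ≤ n := by omega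
    exact_mod_cast this
  have hlog : 0 ≤ Real.log n := Real.log_nonneg hn1
  split_ifs with h
  · have h1 := lower_log hk hd P (by rw [hP]; exact hn)
    rw [hP, hPm, ← hM'] at h1
    rw [div_mul_eq_mul_div, one_mul, div_le_iff₀ hM0']
    refine h1.trans ?_
    calc (M' : ℝ) * (1 + Real.log n) * (fmin d k n : ℝ)
        ≤ (M : ℝ) * (1 + Real.log n) * (fmin d k n : ℝ) := by gcongr
      _ = (1 + Real.log n) * (fmin d k n : ℝ) * M := by ring
  · have hk3 : d + 3 ≤ k := by omega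
    have h1 := lower_nat hk3 P (by rw [hP]; exact hn)
    rw [hP, hPm, ← hM] at h1
    have h2 : ((n : ℝ)) ^ (k - d) ≤ M * (fmin d k n : ℝ) := by exact_mod_cast h1
    rw [div_mul_eq_mul_div, one_mul, div_le_iff₀ hM0']
    linarith

end Pool.Agent.Results.MP_b430f2_co.LowerBound
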