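import Mathlib
import Pool.Agent.Lib.MP_b430f2_co.Defs
import Pool.Agent.Lib.MP_b430f2_co.Plane.Assembly
import Pool.Agent.Lib.MP_b430f2_co.Plane.CoreB
import Pool.Agent.Lib.MP_b430f2_co.Plane.UnstrFin

/-! The order of magnitude of `f_2(k,n)` for all sufficiently large `k`. -/

namespace Pool.Agent.Results.MP_b430f2_co.PlanarOrder

open Pool.Agent.Lib.MP_b430f2_co
open Pool.Agent.Lib.MP_b430f2_co.Plane

/-- There is `k₀` such that for every `k ≥ k₀` the order of magnitude of `f_2(k,n)` is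
`n^(k(k-1)/(k+1))`. -/
theorem result : ∃ k₀ : ℕ, ∀ k : ℕ, k₀ ≤ k → ∃ c C : ℝ, 0 < c ∧ 0 < C ∧ ∀ n : ℕ, k ≤ n →
    c * (n : ℝ) ^ (((k : ℝ) * ((k : ℝ) - 1)) / ((k : ℝ) + 1)) ≤ (fmin 2 k n : ℝ) ∧
    (fmin 2 k n : ℝ) ≤ C * (n : ℝ) ^ (((k : ℝ) * ((k : ℝ) - 1)) / ((k : ℝ) + 1)) :=
  planar_order (unstr_of_core (homStmt line) (core cell richPair))

end Pool.Agent.Results.MP_b430f2_co.PlanarOrder
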